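import Pool.Agent.W230.Hole.Check

/-! Classification of the minimal transversals of the 56 trades (as 14-bit masks). -/

set_option autoImplicit false

open Finset

namespace Pool.Agent.W230.Hole

/-- for each of the 14 planes the mask of the trades (ordered pairs `(x,z)`) it hits -/
def HH : ℕ → ℕ := fun i => ([4042322160, 225176545447116, 215245570375680, 47851476196393130, 46444082595144960, 43233896725846272, 42386175767347350, 7566047824960907520, 7349875031666589798, 6485282419465912410, 6124988953138320640, 4340344140878330940, 3689292520605548544, 1085102592318504960] : List ℕ).getD i 0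

/-- mask of all trades -/
def full : ℕ := 9205322385119247870

/-- the mask of the plane with index `i` -/
def DD : ℕ → ℕ := fun i => Dl.getD i 0

/-- the trades hit by the planes with index `< n` in the mask `s` -/
def hits (s : ℕ) : ℕ → ℕ
  | 0 => 0
  | n + 1 => match s.testBit n with
    | true => Nat.lor (HH n) (hits s n)
    | false => hits s n

/-- separation -/
def sepb (s : ℕ) : Bool := Nat.beq (hits s 14) full

/-- weight of a 14-bit mask -/
def popc (s : ℕ) : ℕ := (List.range 14).countP (fun i => s.testBit i)

/-- the property to be checked at a separating mask -/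
def good (s : ℕ) : Bool :=
  Nat.beq (popc s) 6 || Nat.beq (popc s) 8 ||
    (List.range 14).any (fun i => s.testBit i && sepb (s ^^^ 2 ^ i))

/-- all trades hit by planes of index `< n` -/
def pre (n : ℕ) : ℕ := hits (2 ^ n - 1) n

/-- search with pruning; `h` is the set of trades hit by `s` -/
def search : ℕ → ℕ → ℕ → Bool
  | 0, s, h => !(Nat.beq h full) || good s
  | n + 1, s, h => match Nat.beq (Nat.lor h (pre (n + 1))) full with
    | false => true
    | true => match Nat.beq h full with
      | true => good s
      | false => search n s h && search n (Nat.lor s (2 ^ n)) (Nat.lor h (HH n))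

/-- the classification property -/
def PP (t : ℕ) : Prop := sepb t = true → (∀ i < 14, t.testBit i = true → sepb (t ^^^ 2 ^ i) = false) →
  popc t = 6 ∨ popc t = 8

theorem HH_spec : ∀ i < 14, ∀ q < 64, (HH i).testBit q =
    ((DD i).testBit (q / 8) && !((DD i).testBit (q % 8))) := by decide +kernel

theorem HH_lt : ∀ i < 14, HH i < 2 ^ 64 := by decide +kernel

theorem full_spec : ∀ q < 64, full.testBit q = !(Nat.beq (q / 8) (q % 8)) := by decide +kernel

theorem full_lt : full < 2 ^ 64 := by decide +kernel

theorem hits_testBit (s q : ℕ) : ∀ n, (hits s n).testBit q = true ↔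
    ∃ i < n, s.testBit i = true ∧ (HH i).testBit q = true := by
  intro n
  induction n with
  | zero => simp [hits]
  | succ n ih =>
    rw [hits]
    split
    · rename_i h
      change ((HH n) ||| (hits s n)).testBit q = true ↔ _
      rw [Nat.testBit_or, Bool.or_eq_true, ih]
      constructor
      · rintro (h1 | ⟨i, h1, h2⟩)
        · exact ⟨n, by omega, h, h1⟩
        · exact ⟨i, by omega, h2⟩
      · rintro ⟨i, h1, h2, h3⟩
        by_cases hin : i = n
        · subst hin; left; exact h3
        · right; exact ⟨i, by omega, h2, h3⟩
    · rename_i h
      rw [ih]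
      constructor
      · rintro ⟨i, h1, h2⟩
        exact ⟨i, by omega, h2⟩
      · rintro ⟨i, h1, h2, h3⟩
        refine ⟨i, ?_, h2, h3⟩
        by_contra hc
        have : i = n := by omega
        rw [this, h] at h2
        exact absurd h2 (by decide)

theorem beq_full {h : ℕ} (h1 : ∀ q, h.testBit q = true → full.testBit q = true) :
    Nat.beq h full = true ↔ ∀ q, full.testBit q = true → h.testBit q = true := by
  constructor
  · intro he q hq
    have : h = full := Nat.eq_of_beq_eq_true he
    rw [this]; exact hq
  · intro h2
    have : h = full := by
      apply Nat.eq_of_testBit_eq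
      intro q
      rcases hh : h.testBit q with _ | _
      · rcases hf : full.testBit q with _ | _
        · rfl
        · rw [h2 q hf] at hh; exact absurd hh (by decide)
      · exact (h1 q hh).symm
    rw [this]
    exact Nat.beq_refl _

theorem HH_full (i q : ℕ) (hi : i < 14) (h : (HH i).testBit q = true) : full.testBit q = true := by
  by_cases hq : q < 64
  · rw [HH_spec i hi q hq] at h
    rw [full_spec q hq]
    by_contra hc
    have he : q / 8 = q % 8 := by
      apply Nat.eq_of_beq_eq_true
      simpa using hc
    rw [he] at h
    simp at h
  · rw [Nat.testBit_lt_two_pow] at h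
    · exact absurd h (by decide)
    · exact lt_of_lt_of_le (HH_lt i hi) (Nat.pow_le_pow_right (by norm_num) (by omega))

theorem hits_full (s q n : ℕ) (hn : n ≤ 14) (h : (hits s n).testBit q = true) :
    full.testBit q = true := by
  rw [hits_testBit] at h
  obtain ⟨i, h1, h2, h3⟩ := h
  exact HH_full i q (by omega) h3

theorem sepb_iff {s : ℕ} : sepb s = true ↔
    ∀ q, full.testBit q = true → ∃ i < 14, s.testBit i = true ∧ (HH i).testBit q = true := by
  rw [sepb, beq_full (fun q => hits_full s q 14 le_rfl)]
  simp only [hits_testBit]

theorem sepb_mono {s t : ℕ} (h : sepb s = true) (hst : ∀ i, s.testBit i = true → t.testBit i = true) :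
    sepb t = true := by
  rw [sepb_iff] at h ⊢
  intro q hq
  obtain ⟨i, h0, h1, h2⟩ := h q hq
  exact ⟨i, h0, hst i h1, h2⟩

theorem good_sound {s : ℕ} (h : good s = true) : PP s := by
  intro h1 h2
  simp only [good, Bool.or_eq_true, List.any_eq_true, Bool.and_eq_true, List.mem_range] at h
  rcases h with (h | h) | ⟨i, hi, h3, h4⟩
  · left; exact Nat.eq_of_beq_eq_true h
  · right; exact Nat.eq_of_beq_eq_true h
  · rw [h2 i hi h3] at h4; exact absurd h4 (by decide)

theorem up_sound {n s : ℕ} (hn : n ≤ 14) (hsep : sepb s = true) (hg : good s = true)
    (h0 : ∀ i < n, s.testBit i = false) {t : ℕ} (ht : ∀ i, n ≤ i → t.testBit i = s.testBit i) :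
    PP t := by
  by_cases he : t = s
  · rw [he]; exact good_sound hg
  · intro _ h2
    exfalso
    obtain ⟨i, hi⟩ := Nat.exists_testBit_ne_of_ne he
    have hin : i < n := by
      by_contra hc
      exact hi (ht i (by omega))
    rw [h0 i hin] at hi
    have hti : t.testBit i = true := by simpa using hi
    have h3 := h2 i (by omega) hti
    have h4 : sepb (t ^^^ 2 ^ i) = true := by
      apply sepb_mono hsep
      intro j hj
      rw [Nat.testBit_xor, Nat.testBit_two_pow]
      have hjn : n ≤ j := by
        by_contra hc
        rw [h0 j (by omega)] at hj
        exact absurd hj (by decide)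
      rw [ht j hjn, hj]
      have : ¬ i = j := by omega
      simp [this]
    rw [h3] at h4
    exact absurd h4 (by decide)

theorem hits_congr (s t : ℕ) : ∀ n, (∀ i < n, s.testBit i = t.testBit i) → hits s n = hits t n := by
  intro n
  induction n with
  | zero => intro _; rfl
  | succ n ih =>
    intro h
    rw [hits, hits, h n (by omega), ih (fun i hi => h i (by omega))]

theorem search_sound : ∀ (n : ℕ), n ≤ 14 → ∀ (s h : ℕ), search n s h = true → h = hits s 14 →
    (∀ i < n, s.testBit i = false) →
    ∀ t, (∀ i, n ≤ i → t.testBit i = s.testBit i) → PP t := by
  intro n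
  induction n with
  | zero =>
    intro _ s h hs hh _ t ht
    have : t = s := Nat.eq_of_testBit_eq (fun i => ht i (by omega))
    subst this
    rw [search, Bool.or_eq_true] at hs
    rcases hs with hs | hs
    · intro h1
      rw [sepb, ← hh] at h1
      rw [h1] at hs
      exact absurd hs (by decide)
    · exact good_sound hs
  | succ n ih =>
    intro hn s h hs hh h0 t ht
    rw [search] at hs
    split at hs
    · rename_i hb
      intro h1
      exfalso
      have h2 : Nat.beq (Nat.lor h (pre (n + 1))) full = true := by
        rw [beq_full]
        · intro q hq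
          rw [sepb_iff] at h1
          obtain ⟨i, h3, h4, h5⟩ := h1 q hq
          change (h ||| pre (n + 1)).testBit q = true
          rw [Nat.testBit_or, Bool.or_eq_true]
          by_cases hin : i < n + 1
          · right
            rw [pre, hits_testBit]
            exact ⟨i, hin, by rw [Nat.testBit_two_pow_sub_one]; simpa using hin, h5⟩
          · left
            rw [hh, hits_testBit]
            exact ⟨i, h3, by rw [← ht i (by omega)]; exact h4, h5⟩
        · intro q hq
          change (h ||| pre (n + 1)).testBit q = true at hq
          rw [Nat.testBit_or, Bool.or_eq_true] at hq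
          rcases hq with hq | hq
          · rw [hh] at hq; exact hits_full s q 14 le_rfl hq
          · exact hits_full _ q (n + 1) hn hq
      rw [h2] at hb
      exact absurd hb (by decide)
    · split at hs
      · rename_i hb
        refine up_sound hn ?_ hs h0 ht
        rw [sepb, ← hh]; exact hb
      · rw [Bool.and_eq_true] at hs
        rcases htn : t.testBit n with _ | _
        · refine ih (by omega) s h hs.1 hh (fun i hi => h0 i (by omega)) t ?_
          intro i hi
          by_cases hin : i = n
          · subst hin; rw [htn, h0 i (by omega)]
          · exact ht i (by omega)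
        · refine ih (by omega) (s ||| 2 ^ n) _ hs.2 ?_ ?_ t ?_
          · rw [hh]
            apply Nat.eq_of_testBit_eq
            intro q
            change (hits s 14 ||| HH n).testBit q = _
            rw [Nat.testBit_or, Bool.eq_iff_iff, Bool.or_eq_true, hits_testBit, hits_testBit]
            constructor
            · rintro (⟨i, h1, h2, h3⟩ | h1)
              · exact ⟨i, h1, by rw [Nat.testBit_or, h2]; rfl, h3⟩
              · refine ⟨n, by omega, ?_, h1⟩
                rw [Nat.testBit_or, Nat.testBit_two_pow]; simp
            · rintro ⟨i, h1, h2, h3⟩
              rw [Nat.testBit_or, Bool.or_eq_true, Nat.testBit_two_pow, decide_eq_true_eq] at h2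
              rcases h2 with h2 | h2
              · left; exact ⟨i, h1, h2, h3⟩
              · right; rw [h2]; exact h3
          · intro i hi
            rw [Nat.testBit_or, Nat.testBit_two_pow, h0 i (by omega)]
            have : ¬ n = i := by omega
            simp [this]
          · intro i hi
            rw [Nat.testBit_or, Nat.testBit_two_pow]
            by_cases hin : i = n
            · subst hin; simp [htn]
            · rw [ht i (by omega)]
              have : ¬ n = i := by omega
              simp [this]

theorem search_ok : search 14 0 0 = true := by decide +kernel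

theorem classify (t : ℕ) (ht : t < 2 ^ 14) : PP t := by
  refine search_sound 14 le_rfl 0 0 search_ok (by rfl) (by simp) t ?_
  intro i hi
  rw [Nat.zero_testBit, Nat.testBit_lt_two_pow]
  exact lt_of_lt_of_le ht (Nat.pow_le_pow_right (by norm_num) hi)

end Pool.Agent.W230.Hole
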