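import Pool.Agent.W230.Hole.Facts

/-! A checker for refutation trees and its soundness. -/

set_option autoImplicit false

open Finset

namespace Pool.Agent.W230.Hole

/-- the masks of weight four -/
def maskList : List ℕ := [15, 23, 27, 29, 30, 39, 43, 45, 46, 51, 53, 54, 57, 58, 60, 71, 75, 77, 78, 83, 85, 86, 89, 90, 92, 99, 101, 102, 105, 106, 108, 113, 114, 116, 120, 135, 139, 141, 142, 147, 149, 150, 153, 154, 156, 163, 165, 166, 169, 170, 172, 177, 178, 180, 184, 195, 197, 198, 201, 202, 204, 209, 210, 212, 216, 225, 226, 228, 232, 240]

/-- the masks of the planes -/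
def Dl : List ℕ := [15, 51, 60, 85, 90, 102, 105, 150, 153, 165, 170, 195, 204, 240]

theorem maskList_spec : ∀ m < 256, (blk m).card = 4 → m ∈ maskList := by decide +kernel

theorem maskList_card : ∀ m ∈ maskList, m < 256 ∧ (blk m).card = 4 := by decide +kernel

theorem maskList_nodup : maskList.Nodup := by decide +kernel

theorem Dl_sub : ∀ m ∈ Dl, m ∈ maskList := by decide +kernel

/-- masks of weight four containing the mask `p` -/
def sup (p : ℕ) : List ℕ := maskList.filter (fun m => decide (m &&& p = p))

theorem sup_spec : ∀ p ∈ pairs, ∀ m ∈ maskList, (blk p ⊆ blk m ↔ m &&& p = p) := by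
  decide +kernel

theorem sup_length : ∀ p ∈ pairs, (sup p).length = 15 := by decide +kernel

theorem inter_card : ∀ m ∈ maskList, ∀ m' ∈ maskList, (blk m ∩ blk m').card = (blk (m &&& m')).card := by
  intro m _ m' _
  congr 1
  ext i
  simp [mem_blk]

theorem compl_blk : ∀ m ∈ maskList, (blk m)ᶜ = blk (255 - m) := by decide +kernel

/-- the leaf condition for a pair -/
def pairLeaf (p y n : ℕ) : Bool :=
  decide (3 < (sup p).countP (fun m => y.testBit m)) || decide (12 < (sup p).countP (fun m => n.testBit m))

/-- the leaf condition for complementary blocks -/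
def compLeaf (B C y : ℕ) : Bool :=
  maskList.contains B && maskList.contains C && y.testBit B && y.testBit (255 - B) && y.testBit C &&
  !(C == B) && !(C == 255 - B) && !(decide ((blk (B &&& C)).card = 2))

/-- the leaf condition for a trade -/
def tradeLeaf (x z n : ℕ) : Bool :=
  !(x == z) && decide (x < 8) && decide (z < 8) &&
  Dl.all (fun m => !(m.testBit x) || m.testBit z || n.testBit m)

/-- checker for refutation trees -/
def chk : ℕ → ℕ → ℕ → ℕ → Option ℕ
  | 0, _, _, _ => none
  | f + 1, c, y, n =>
    match decide (c % 512 < 256) with
    | true =>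
      match chk f (c / 512) (y ||| 2 ^ (c % 512)) n with
      | none => none
      | some c' => chk f c' y (n ||| 2 ^ (c % 512))
    | false =>
      match decide (c % 512 < 284) with
      | true => match pairLeaf (pairs.getD (c % 512 - 256) 3) y n with
        | true => some (c / 512)
        | false => none
      | false =>
        match decide (c % 512 = 300) with
        | true => match Dl.all (fun m => y.testBit m) with
          | true => some (c / 512)
          | false => none
        | false =>
          match decide (c % 512 = 301) with
          | true => match compLeaf (c / 512 % 512) (c / 512 / 512 % 512) y with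
            | true => some (c / 512 / 512 / 512)
            | false => none
          | false => match tradeLeaf ((c % 512 - 400) / 8) ((c % 512 - 400) % 8) n with
            | true => some (c / 512)
            | false => none

section
variable {D' : Finset (Finset (Fin 8))}

theorem F1 (h : IsDesign 2 8 4 3 D') (p : ℕ) (hp : p ∈ pairs) :
    (sup p).countP (fun m => decide (blk m ∈ D')) = 3 := by
  have h1 := h.2 (blk p) (pairs_card p hp).2
  rw [← h1, List.countP_eq_length_filter]
  have hnd : ((sup p).filter (fun m => decide (blk m ∈ D'))).Nodup :=
    (maskList_nodup.filter _).filter _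
  rw [← List.toFinset_card_of_nodup hnd]
  symm
  apply Finset.card_bij' (fun b _ => enc b) (fun m _ => blk m)
  · intro b hb
    rw [mem_filter] at hb
    have hm := maskList_spec (enc b) (enc_lt b) (by rw [blk_enc]; exact h.1 b hb.1)
    simp only [List.mem_toFinset, List.mem_filter, sup, decide_eq_true_eq, blk_enc]
    refine ⟨⟨hm, ?_⟩, hb.1⟩
    rw [← sup_spec p hp _ hm, blk_enc]
    exact hb.2
  · intro m hm
    simp only [List.mem_toFinset, List.mem_filter, sup, decide_eq_true_eq] at hm
    rw [mem_filter]
    exact ⟨hm.2, (sup_spec p hp _ hm.1.1).2 hm.1.2⟩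
  · intro b _
    exact blk_enc b
  · intro m hm
    simp only [List.mem_toFinset, List.mem_filter, sup, decide_eq_true_eq] at hm
    exact enc_blk m (maskList_card m hm.1.1).1

/-- what the tree proves -/
def Goal (D' : Finset (Finset (Fin 8))) : Prop :=
  (∀ m ∈ Dl, blk m ∈ D') ∨ ∃ x z : Fin 8, x ≠ z ∧ ∀ m ∈ Dl, m.testBit x = true →
    m.testBit z = false → blk m ∉ D'

theorem pairLeaf_sound (h : IsDesign 2 8 4 3 D') {p y n : ℕ} (hp : p ∈ pairs)
    (hy : ∀ m, y.testBit m = true → blk m ∈ D') (hn : ∀ m, n.testBit m = true → blk m ∉ D')
    (hl : pairLeaf p y n = true) : False := by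
  have h1 := F1 h p hp
  rw [pairLeaf, Bool.or_eq_true, decide_eq_true_eq, decide_eq_true_eq] at hl
  rcases hl with hl | hl
  · have : (sup p).countP (fun m => y.testBit m) ≤ (sup p).countP (fun m => decide (blk m ∈ D')) := by
      apply List.countP_mono_left
      intro m _ hm
      simpa using hy m hm
    omega
  · have h2 : (sup p).countP (fun m => n.testBit m) ≤
        (sup p).countP (fun m => decide (¬ (decide (blk m ∈ D') = true))) := by
      apply List.countP_mono_left
      intro m _ hm
      simpa using hn m hm
    have h3 := List.length_eq_countP_add_countP (fun m => decide (blk m ∈ D')) (l := sup p)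
    rw [sup_length p hp] at h3
    omega

theorem compLeaf_sound (h : IsDesign 2 8 4 3 D') {B C y : ℕ}
    (hy : ∀ m, y.testBit m = true → blk m ∈ D')
    (hl : compLeaf B C y = true) : False := by
  simp only [compLeaf, Bool.and_eq_true, Bool.not_eq_true', List.contains_iff_mem, beq_eq_false_iff_ne,
    decide_eq_false_iff_not] at hl
  obtain ⟨⟨⟨⟨⟨⟨⟨hB, hC⟩, h1⟩, h2⟩, h3⟩, h4⟩, h5⟩, h6⟩ := hl
  apply h6
  rw [← inter_card B hB C hC]
  have hBlt := (maskList_card B hB).1
  have hClt := (maskList_card C hC).1
  apply compl_rule h (hy B h1) (by rw [compl_blk B hB]; exact hy _ h2) (hy C h3)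
  · intro he; exact h4 (blk_inj hClt hBlt he)
  · intro he
    rw [compl_blk B hB] at he
    exact h5 (blk_inj hClt (by omega) he)

theorem tradeLeaf_sound {x z n : ℕ}
    (hn : ∀ m, n.testBit m = true → blk m ∉ D')
    (hl : tradeLeaf x z n = true) : Goal D' := by
  simp only [tradeLeaf, Bool.and_eq_true, Bool.not_eq_true', beq_eq_false_iff_ne,
    decide_eq_true_eq, List.all_eq_true, Bool.or_eq_true] at hl
  obtain ⟨⟨⟨h1, h2⟩, h3⟩, h4⟩ := hl
  right
  refine ⟨⟨x, h2⟩, ⟨z, h3⟩, ?_, ?_⟩
  · intro he; exact h1 (Fin.mk.inj_iff.1 he)
  · intro m hm hx hz
    rcases h4 m hm with (h | h) | h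
    · simp only at hx; rw [hx] at h; exact absurd h (by decide)
    · simp only at hz; rw [hz] at h; exact absurd h (by decide)
    · exact hn m h

theorem chk_sound (h : IsDesign 2 8 4 3 D') : ∀ (f c y n c' : ℕ), chk f c y n = some c' →
    (∀ m, y.testBit m = true → blk m ∈ D') → (∀ m, n.testBit m = true → blk m ∉ D') →
    Goal D' := by
  intro f
  induction f with
  | zero => intro c y n c' hc; simp [chk] at hc
  | succ f ih =>
    intro c y n c' hc hy hn
    rw [chk] at hc
    split at hc
    · -- branch
      split at hc
      · exact absurd hc (by simp)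
      · rename_i c1 hc1
        by_cases hm : blk (c % 512) ∈ D'
        · refine ih _ _ _ _ hc1 ?_ hn
          intro m hmm
          rw [Nat.testBit_or, Bool.or_eq_true, Nat.testBit_two_pow, decide_eq_true_eq] at hmm
          rcases hmm with hmm | hmm
          · exact hy m hmm
          · rw [← hmm]; exact hm
        · refine ih _ _ _ _ hc hy ?_
          intro m hmm
          rw [Nat.testBit_or, Bool.or_eq_true, Nat.testBit_two_pow, decide_eq_true_eq] at hmm
          rcases hmm with hmm | hmm
          · exact hn m hmm
          · rw [← hmm]; exact hm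
    · split at hc
      · split at hc
        · rename_i hl
          exfalso
          refine pairLeaf_sound h ?_ hy hn hl
          generalize c % 512 - 256 = j
          rw [List.getD_eq_getElem?_getD]
          rcases hj : pairs[j]? with _ | q
          · simp only [Option.getD_none]; decide
          · simp only [Option.getD_some]; exact List.mem_of_getElem? hj
        · exact absurd hc (by simp)
      · split at hc
        · split at hc
          · rename_i hl
            rw [List.all_eq_true] at hl
            left
            intro m hm
            exact hy m (hl m hm)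
          · exact absurd hc (by simp)
        · split at hc
          · split at hc
            · rename_i hl
              exact (compLeaf_sound h hy hl).elim
            · exact absurd hc (by simp)
          · split at hc
            · rename_i hl
              exact tradeLeaf_sound hn hl
            · exact absurd hc (by simp)

end

end Pool.Agent.W230.Hole
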