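import Mathlib

/-! Designs, defining sets, minimal defining sets and the spectrum of a design. -/

set_option autoImplicit false

namespace Pool.Agent.W230.Hole

/-- `B` is the block set of a simple `t-(v,k,lam)` design on the point set `Fin v`: every block has
`k` points and every `t`-subset of the points lies in exactly `lam` blocks. -/
def IsDesign (t v k lam : ℕ) (B : Finset (Finset (Fin v))) : Prop :=
  (∀ b ∈ B, b.card = k) ∧
  ∀ T : Finset (Fin v), T.card = t → (B.filter (fun b => T ⊆ b)).card = lam

/-- `S` is a defining set of the `t-(v,k,lam)` design `D`: `S` consists of blocks of `D` and `D` is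
the only `t-(v,k,lam)` design on `Fin v` whose block set contains `S`. -/
def IsDefining (t v k lam : ℕ) (D S : Finset (Finset (Fin v))) : Prop :=
  S ⊆ D ∧ ∀ D' : Finset (Finset (Fin v)), IsDesign t v k lam D' → S ⊆ D' → D' = D

/-- `S` is a minimal defining set of `D`: a defining set none of whose proper subsets is one. -/
def IsMinimalDefining (t v k lam : ℕ) (D S : Finset (Finset (Fin v))) : Prop :=
  IsDefining t v k lam D S ∧ ∀ S' : Finset (Finset (Fin v)), S' ⊂ S → ¬ IsDefining t v k lam D S'

/-- The spectrum of `D`: the set of sizes of its minimal defining sets. -/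
def spectrum (t v k lam : ℕ) (D : Finset (Finset (Fin v))) : Set ℕ :=
  {m | ∃ S, IsMinimalDefining t v k lam D S ∧ S.card = m}

/-- A set of natural numbers has a hole: some integer strictly between two of its elements is
missing. -/
def HasHole (A : Set ℕ) : Prop := ∃ a ∈ A, ∃ b ∈ A, ∃ m, a < m ∧ m < b ∧ m ∉ A

end Pool.Agent.W230.Hole
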