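import Pool.Agent.W230.Hole.Mask

/-! Facts on arbitrary `2-(8,4,3)` designs. -/

set_option autoImplicit false

open Finset

namespace Pool.Agent.W230.Hole

theorem double_count {D : Finset (Finset (Fin 8))} (h : IsDesign 2 8 4 3 D) (X : Finset (Fin 8)) :
    ∑ C ∈ D, (X ∩ C).card.choose 2 = X.card.choose 2 * 3 := by
  have h1 : ∑ T ∈ X.powersetCard 2, (D.filter (fun b => T ⊆ b)).card = X.card.choose 2 * 3 := by
    rw [Finset.sum_congr rfl (g := fun _ => 3)]
    · rw [Finset.sum_const, Finset.card_powersetCard, smul_eq_mul]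
    · intro T hT
      exact h.2 T (Finset.mem_powersetCard.1 hT).2
  rw [← h1]
  simp only [Finset.card_filter]
  rw [Finset.sum_comm]
  apply Finset.sum_congr rfl
  intro C _
  rw [← Finset.card_filter, ← Finset.card_powersetCard]
  congr 1
  ext T
  simp only [mem_powersetCard, mem_filter, Finset.subset_inter_iff]
  tauto

theorem card_design {D : Finset (Finset (Fin 8))} (h : IsDesign 2 8 4 3 D) : D.card = 14 := by
  have h1 := double_count h univ
  have h2 : ∑ C ∈ D, (univ ∩ C).card.choose 2 = ∑ C ∈ D, 6 := by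
    apply Finset.sum_congr rfl
    intro C hC
    rw [Finset.univ_inter, h.1 C hC]; rfl
  rw [h2, Finset.sum_const, smul_eq_mul, Finset.card_univ, Fintype.card_fin] at h1
  have : Nat.choose 8 2 = 28 := by decide
  omega

theorem compl_rule {D : Finset (Finset (Fin 8))} (h : IsDesign 2 8 4 3 D) {B C : Finset (Fin 8)}
    (hB : B ∈ D) (hB' : Bᶜ ∈ D) (hC : C ∈ D) (h1 : C ≠ B) (h2 : C ≠ Bᶜ) : (B ∩ C).card = 2 := by
  have hcard : ∀ C ∈ D, (B ∩ C).card + (Bᶜ ∩ C).card = 4 := by
    intro C hC
    rw [← h.1 C hC, ← Finset.card_union_of_disjoint]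
    · congr 1
      ext x
      simp only [mem_union, mem_inter, mem_compl]
      tauto
    · rw [Finset.disjoint_left]
      intro x hx hx'
      simp only [mem_inter, mem_compl] at hx hx'
      exact hx'.1 hx.1
  have hB4 := h.1 B hB
  have hB4' := h.1 _ hB'
  let f : Finset (Fin 8) → ℕ := fun C => (B ∩ C).card.choose 2 + (Bᶜ ∩ C).card.choose 2
  have hf : ∑ C ∈ D, f C = 36 := by
    simp only [f]
    rw [Finset.sum_add_distrib, double_count h, double_count h, hB4, hB4']
    rfl
  have hval : ∀ C ∈ D, (f C = 2 ∧ (B ∩ C).card = 2) ∨ (3 ≤ f C ∧ (B ∩ C).card ≠ 2) := by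
    intro C hC
    have := hcard C hC
    simp only [f]
    have hle : (B ∩ C).card ≤ 4 := by omega
    have he : (Bᶜ ∩ C).card = 4 - (B ∩ C).card := by omega
    rw [he]
    generalize (B ∩ C).card = a at *
    interval_cases a <;> decide
  let g : Finset (Fin 8) → ℕ := fun C => f C - 2
  have hg : ∑ C ∈ D, g C + 28 = 36 := by
    rw [← hf, ← show ∑ C ∈ D, 2 = 28 by rw [Finset.sum_const, card_design h]; rfl,
      ← Finset.sum_add_distrib]
    apply Finset.sum_congr rfl
    intro C hC
    simp only [g]
    rcases hval C hC with h | h <;> omega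
  have hBne : B ≠ Bᶜ := by
    intro he
    have hx : B.Nonempty := by rw [← Finset.card_pos]; omega
    obtain ⟨x, hx⟩ := hx
    have hx' := hx
    rw [he, mem_compl] at hx'
    exact hx' hx
  have hgB : g B = 4 := by
    simp only [g, f]
    rw [Finset.inter_self, hB4, Finset.inter_comm, Finset.inter_compl]
    rfl
  have hgB' : g Bᶜ = 4 := by
    simp only [g, f]
    rw [Finset.inter_self, hB4', Finset.inter_compl]
    rfl
  have hsub : ({B, Bᶜ, C} : Finset (Finset (Fin 8))) ⊆ D := by
    intro X hX
    simp only [mem_insert, mem_singleton] at hX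
    rcases hX with rfl | rfl | rfl <;> assumption
  have hsum : ∑ X ∈ ({B, Bᶜ, C} : Finset (Finset (Fin 8))), g X ≤ ∑ X ∈ D, g X :=
    Finset.sum_le_sum_of_subset hsub
  rw [Finset.sum_insert (by simp [hBne, Ne.symm h1]), Finset.sum_insert (by simp [Ne.symm h2]),
    Finset.sum_singleton, hgB, hgB'] at hsum
  rcases hval C hC with h | h
  · exact h.2
  · exfalso
    simp only [g] at hsum hg
    omega

/-- two designs, one containing the other, coincide -/
theorem eq_of_subset {D D' : Finset (Finset (Fin 8))} (h : IsDesign 2 8 4 3 D)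
    (h' : IsDesign 2 8 4 3 D') (hs : D ⊆ D') : D' = D := by
  symm
  apply Finset.eq_of_subset_of_card_le hs
  rw [card_design h, card_design h']

end Pool.Agent.W230.Hole
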