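import Pool.Agent.W230.Hole.Check

/-! The planes of AG(3,2), and the 56 trades. -/

set_option autoImplicit false

open Finset

namespace Pool.Agent.W230.Hole

/-- the set of blocks coded by a list of masks -/
def toD (L : List ℕ) : Finset (Finset (Fin 8)) := (L.map blk).toFinset

theorem mem_toD {L : List ℕ} {b : Finset (Fin 8)} : b ∈ toD L ↔ ∃ m ∈ L, blk m = b := by
  simp [toD]

theorem isDesign_toD (L : List ℕ) (h0 : L.Nodup) (h1 : ∀ m ∈ L, m ∈ maskList)
    (h2 : ∀ p ∈ pairs, L.countP (fun m => decide (m &&& p = p)) = 3) :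
    IsDesign 2 8 4 3 (toD L) := by
  refine ⟨?_, ?_⟩
  · intro b hb
    obtain ⟨m, hm, rfl⟩ := mem_toD.1 hb
    exact (maskList_card m (h1 m hm)).2
  · intro T hT
    have hp : enc T ∈ pairs := pairs_spec (enc T) (enc_lt T) (by rw [blk_enc]; exact hT)
    rw [← h2 _ hp, List.countP_eq_length_filter,
      ← List.toFinset_card_of_nodup (h0.filter _)]
    apply Finset.card_bij' (fun b _ => enc b) (fun m _ => blk m)
    · intro b hb
      rw [mem_filter] at hb
      obtain ⟨m, hm, rfl⟩ := mem_toD.1 hb.1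
      rw [enc_blk m (maskList_card m (h1 m hm)).1]
      simp only [List.mem_toFinset, List.mem_filter, decide_eq_true_eq]
      refine ⟨hm, ?_⟩
      rw [← sup_spec _ hp m (h1 m hm), blk_enc]
      exact hb.2
    · intro m hm
      simp only [List.mem_toFinset, List.mem_filter, decide_eq_true_eq] at hm
      rw [mem_filter]
      refine ⟨mem_toD.2 ⟨m, hm.1, rfl⟩, ?_⟩
      have := (sup_spec _ hp m (h1 m hm.1)).2 hm.2
      rwa [blk_enc] at this
    · intro b _
      exact blk_enc b
    · intro m hm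
      simp only [List.mem_toFinset, List.mem_filter, decide_eq_true_eq] at hm
      exact enc_blk m (maskList_card m (h1 m hm.1)).1

/-- The fourteen planes of the affine space `AG(3,2)`: the points are numbered `0,...,7` by binary
expansion, and a 4-set is a plane when the bitwise sum of its four numbers is zero. -/
def planes : Finset (Finset (Fin 8)) :=
  {{0, 1, 2, 3}, {0, 1, 4, 5}, {2, 3, 4, 5}, {0, 2, 4, 6}, {1, 3, 4, 6}, {1, 2, 5, 6},
   {0, 3, 5, 6}, {1, 2, 4, 7}, {0, 3, 4, 7}, {0, 2, 5, 7}, {1, 3, 5, 7}, {0, 1, 6, 7},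
   {2, 3, 6, 7}, {4, 5, 6, 7}}

theorem planes_eq : planes = toD Dl := by decide +kernel

theorem mem_planes {b : Finset (Fin 8)} : b ∈ planes ↔ ∃ m ∈ Dl, blk m = b := by
  rw [planes_eq, mem_toD]

theorem isDesign_planes : IsDesign 2 8 4 3 planes := by
  rw [planes_eq]
  exact isDesign_toD Dl (by decide) Dl_sub (by decide +kernel)

/-- xor all points of a mask with `d` -/
def shiftMask (d m : ℕ) : ℕ :=
  (List.range 8).foldl (fun acc i => if m.testBit i then acc ||| 2 ^ (i ^^^ d) else acc) 0

/-- the traded design -/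
def tradeList (x z : ℕ) : List ℕ :=
  Dl.filter (fun m => !(m.testBit x) || m.testBit z) ++
  (Dl.filter (fun m => m.testBit x && !(m.testBit z))).map
    (fun m => shiftMask (x ^^^ z) (m - 2 ^ x) ||| 2 ^ x)

/-- all checks on the traded design -/
def tradeOK (x z : ℕ) : Bool :=
  decide ((tradeList x z).Nodup) && (tradeList x z).all (fun m => maskList.contains m) &&
  pairs.all (fun p => decide ((tradeList x z).countP (fun m => decide (m &&& p = p)) = 3)) &&
  Dl.any (fun m => !((tradeList x z).contains m))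

theorem tradeOK_all : ∀ x < 8, ∀ z < 8, x ≠ z → tradeOK x z = true := by decide +kernel

theorem exists_trade (x z : Fin 8) (hxz : x ≠ z) : ∃ D' : Finset (Finset (Fin 8)),
    IsDesign 2 8 4 3 D' ∧ D' ≠ planes ∧ ∀ b ∈ planes, (x ∈ b → z ∈ b) → b ∈ D' := by
  have h := tradeOK_all x x.2 z z.2 (fun h => hxz (Fin.ext h))
  simp only [tradeOK, Bool.and_eq_true, decide_eq_true_eq, List.all_eq_true, List.contains_iff_mem,
    List.any_eq_true, Bool.not_eq_true'] at h
  obtain ⟨⟨⟨h1, h2⟩, h3⟩, m0, hm0, hm0'⟩ := h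
  refine ⟨toD (tradeList x z), isDesign_toD _ h1 h2 h3, ?_, ?_⟩
  · intro he
    have hb : blk m0 ∈ planes := mem_planes.2 ⟨m0, hm0, rfl⟩
    rw [← he, mem_toD] at hb
    obtain ⟨m, hm, hmm⟩ := hb
    have := blk_inj (maskList_card m (h2 m hm)).1 (maskList_card m0 (Dl_sub m0 hm0)).1 hmm
    subst this
    rw [← List.contains_iff_mem] at hm
    rw [hm0'] at hm
    exact absurd hm (by decide)
  · intro b hb hxz'
    obtain ⟨m, hm, rfl⟩ := mem_planes.1 hb
    rw [mem_toD]
    refine ⟨m, ?_, rfl⟩
    rw [mem_blk, mem_blk] at hxz'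
    rw [tradeList, List.mem_append]
    left
    rw [List.mem_filter]
    refine ⟨hm, ?_⟩
    rcases hx : m.testBit x with _ | _
    · simp
    · simp [hxz' hx]

end Pool.Agent.W230.Hole
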