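import Pool.Agent.W230.Hole.Brute
import Pool.Agent.W230.Hole.Cert
import Pool.Agent.W230.Hole.Trade

/-! The spectrum of the design of planes of `AG(3,2)`. -/

set_option autoImplicit false

open Finset

namespace Pool.Agent.W230.Hole

/-- A family of sets separates the points completely. -/
def Sep (S : Finset (Finset (Fin 8))) : Prop :=
  ∀ x z : Fin 8, x ≠ z → ∃ b ∈ S, x ∈ b ∧ z ∉ b

instance (S : Finset (Finset (Fin 8))) : Decidable (Sep S) := by unfold Sep; infer_instance

theorem Sep.mono {S T : Finset (Finset (Fin 8))} (h : Sep S) (hST : S ⊆ T) : Sep T := by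
  intro x z hxz
  obtain ⟨b, hb, h1⟩ := h x z hxz
  exact ⟨b, hST hb, h1⟩

theorem defining_iff {S : Finset (Finset (Fin 8))} :
    IsDefining 2 8 4 3 planes S ↔ S ⊆ planes ∧ Sep S := by
  constructor
  · rintro ⟨h1, h2⟩
    refine ⟨h1, ?_⟩
    by_contra hc
    unfold Sep at hc
    push Not at hc
    obtain ⟨x, z, hxz, h3⟩ := hc
    obtain ⟨D', hD, hne, h4⟩ := exists_trade x z hxz
    exact hne (h2 D' hD (fun b hb => h4 b (h1 hb) (h3 b hb)))
  · rintro ⟨h1, h2⟩
    refine ⟨h1, fun D' hD hS => ?_⟩
    rcases key hD with h3 | ⟨x, z, hxz, h3⟩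
    · apply eq_of_subset isDesign_planes hD
      intro b hb
      obtain ⟨m, hm, rfl⟩ := mem_planes.1 hb
      exact h3 m hm
    · exfalso
      obtain ⟨b, hb, hx, hz⟩ := h2 x z hxz
      obtain ⟨m, hm, rfl⟩ := mem_planes.1 (h1 hb)
      rw [mem_blk] at hx hz
      exact h3 m hm hx (by simpa using hz) (hS hb)

/-- The 14-bit mask of a family of planes. -/
def code (S : Finset (Finset (Fin 8))) : ℕ := Nat.ofBits (fun i : Fin 14 => decide (blk (DD i) ∈ S))

theorem code_lt (S : Finset (Finset (Fin 8))) : code S < 2 ^ 14 := Nat.ofBits_lt_two_pow _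

theorem code_testBit (S : Finset (Finset (Fin 8))) (i : ℕ) (hi : i < 14) :
    (code S).testBit i = decide (blk (DD i) ∈ S) :=
  Nat.testBit_ofBits_lt _ _ hi

theorem code_testBit_ge (S : Finset (Finset (Fin 8))) (i : ℕ) (hi : 14 ≤ i) :
    (code S).testBit i = false :=
  Nat.testBit_ofBits_ge _ _ hi

theorem DD_mem : ∀ i < 14, DD i ∈ Dl := by decide +kernel

theorem DD_surj : ∀ m ∈ Dl, ∃ i < 14, DD i = m := by decide +kernel

theorem DD_inj : ∀ i < 14, ∀ j < 14, DD i = DD j → i = j := by decide +kernel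

theorem DD_lt : ∀ i < 14, DD i < 256 := by decide +kernel

theorem sepb_code {S : Finset (Finset (Fin 8))} (hS : S ⊆ planes) :
    sepb (code S) = true ↔ Sep S := by
  rw [sepb_iff]
  constructor
  · intro h x z hxz
    have hq : 8 * (x : ℕ) + z < 64 := by omega
    have e1 : (8 * (x : ℕ) + z) / 8 = x := by omega
    have e2 : (8 * (x : ℕ) + z) % 8 = z := by omega
    have hf : full.testBit (8 * (x : ℕ) + z) = true := by
      rw [full_spec _ hq, e1, e2]
      rcases hb : Nat.beq x z with _ | _
      · rfl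
      · exact absurd (Fin.ext (Nat.eq_of_beq_eq_true hb)) hxz
    obtain ⟨i, hi, h1, h2⟩ := h _ hf
    rw [code_testBit S i hi, decide_eq_true_eq] at h1
    rw [HH_spec i hi _ hq, e1, e2, Bool.and_eq_true] at h2
    refine ⟨_, h1, (mem_blk _ _).2 h2.1, ?_⟩
    rw [mem_blk]
    intro hc
    rw [hc] at h2
    exact absurd h2.2 (by decide)
  · intro h q hq
    have hq64 : q < 64 := by
      by_contra hc
      rw [Nat.testBit_lt_two_pow (lt_of_lt_of_le full_lt
        (Nat.pow_le_pow_right (by norm_num) (by omega)))] at hq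
      exact absurd hq (by decide)
    have hne : (⟨q / 8, by omega⟩ : Fin 8) ≠ ⟨q % 8, by omega⟩ := by
      intro he
      rw [full_spec q hq64, Fin.mk.inj_iff.1 he] at hq
      simp at hq
    obtain ⟨b, hb, hx, hz⟩ := h _ _ hne
    obtain ⟨m, hm, rfl⟩ := mem_planes.1 (hS hb)
    obtain ⟨i, hi, rfl⟩ := DD_surj m hm
    refine ⟨i, hi, ?_, ?_⟩
    · rw [code_testBit S i hi, decide_eq_true_eq]; exact hb
    · rw [HH_spec i hi q hq64, Bool.and_eq_true]
      rw [mem_blk] at hx hz
      exact ⟨hx, by simpa using hz⟩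

theorem popc_code {S : Finset (Finset (Fin 8))} (hS : S ⊆ planes) : popc (code S) = S.card := by
  have h1 : S = ((List.range 14).filter (fun i => (code S).testBit i)).toFinset.image
      (fun i => blk (DD i)) := by
    ext b
    simp only [mem_image, List.mem_toFinset, List.mem_filter, List.mem_range]
    constructor
    · intro hb
      obtain ⟨m, hm, rfl⟩ := mem_planes.1 (hS hb)
      obtain ⟨i, hi, rfl⟩ := DD_surj m hm
      exact ⟨i, ⟨hi, by rw [code_testBit S i hi]; simpa using hb⟩, rfl⟩
    · rintro ⟨i, ⟨hi, h⟩, rfl⟩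
      rw [code_testBit S i hi] at h
      simpa using h
  have h2 : S.card = ((List.range 14).filter (fun i => (code S).testBit i)).toFinset.card := by
    conv_lhs => rw [h1]
    apply Finset.card_image_of_injOn
    intro i hi j hj hij
    simp only [List.coe_toFinset, List.mem_filter, List.mem_range, Set.mem_ofPred_eq] at hi hj
    exact DD_inj i hi.1 j hj.1 (blk_inj (DD_lt i hi.1) (DD_lt j hj.1) hij)
  rw [h2, List.toFinset_card_of_nodup (List.nodup_range.filter _), popc, List.countP_eq_length_filter]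

theorem code_erase {S : Finset (Finset (Fin 8))} {i : ℕ} (hi : i < 14) (h : blk (DD i) ∈ S) :
    code (S.erase (blk (DD i))) = code S ^^^ 2 ^ i := by
  apply Nat.eq_of_testBit_eq
  intro j
  rw [Nat.testBit_xor, Nat.testBit_two_pow]
  by_cases hj : j < 14
  · rw [code_testBit _ j hj, code_testBit _ j hj]
    by_cases hij : i = j
    · subst hij
      simp [h]
    · have hne : blk (DD j) ≠ blk (DD i) := by
        intro he
        exact hij (DD_inj i hi j hj (blk_inj (DD_lt j hj) (DD_lt i hi) he).symm)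
      simp [hij, hne]
  · rw [code_testBit_ge _ j (by omega), code_testBit_ge _ j (by omega)]
    have : ¬ i = j := by omega
    simp [this]

/-- A minimal defining set has six or eight blocks. -/
theorem card_of_minimal {S : Finset (Finset (Fin 8))} (h : IsMinimalDefining 2 8 4 3 planes S) :
    S.card = 6 ∨ S.card = 8 := by
  obtain ⟨h1, h2⟩ := h
  obtain ⟨hS, hsep⟩ := defining_iff.1 h1
  rw [← popc_code hS]
  refine classify (code S) (code_lt S) ((sepb_code hS).2 hsep) ?_
  intro i hi hbit
  rw [code_testBit S i hi, decide_eq_true_eq] at hbit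
  rw [← code_erase hi hbit]
  by_contra hc
  rw [Bool.not_eq_false] at hc
  have hsub : S.erase (blk (DD i)) ⊆ planes := (Finset.erase_subset _ _).trans hS
  exact h2 _ (Finset.erase_ssubset hbit) (defining_iff.2 ⟨hsub, (sepb_code hsub).1 hc⟩)

/-- a minimal defining set with six blocks -/
def S6 : Finset (Finset (Fin 8)) := toD [90, 102, 105, 150, 153, 165]

/-- a minimal defining set with eight blocks -/
def S8 : Finset (Finset (Fin 8)) := toD [15, 51, 85, 90, 102, 150, 153, 165]

theorem minimal_of {S : Finset (Finset (Fin 8))} (h1 : S ⊆ planes) (h2 : Sep S)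
    (h3 : ∀ b ∈ S, ¬ Sep (S.erase b)) : IsMinimalDefining 2 8 4 3 planes S := by
  refine ⟨defining_iff.2 ⟨h1, h2⟩, fun S' hS' hd => ?_⟩
  obtain ⟨b, hb, hb'⟩ := Finset.exists_of_ssubset hS'
  refine h3 b hb ((defining_iff.1 hd).2.mono ?_)
  intro c hc
  exact Finset.mem_erase.2 ⟨fun he => hb' (he ▸ hc), hS'.1 hc⟩

theorem minimal_S6 : IsMinimalDefining 2 8 4 3 planes S6 :=
  minimal_of (by decide +kernel) (by decide +kernel) (by decide +kernel)

theorem minimal_S8 : IsMinimalDefining 2 8 4 3 planes S8 :=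
  minimal_of (by decide +kernel) (by decide +kernel) (by decide +kernel)

theorem spectrum_planes : spectrum 2 8 4 3 planes = {6, 8} := by
  ext m
  constructor
  · rintro ⟨S, hS, rfl⟩
    exact card_of_minimal hS
  · rintro (rfl | rfl)
    · exact ⟨S6, minimal_S6, by decide +kernel⟩
    · exact ⟨S8, minimal_S8, by decide +kernel⟩

end Pool.Agent.W230.Hole
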