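import Pool.Agent.W230.Hole.Defs

set_option autoImplicit false

open Finset

namespace Pool.Agent.W230.Hole

/-- The subset of `Fin 8` coded by a bit mask. -/
def blk (m : ℕ) : Finset (Fin 8) := univ.filter (fun i => m.testBit i = true)

/-- The bit mask of a subset of `Fin 8`. -/
def enc (b : Finset (Fin 8)) : ℕ := Nat.ofBits (fun i : Fin 8 => decide (i ∈ b))

theorem enc_lt (b : Finset (Fin 8)) : enc b < 256 := Nat.ofBits_lt_two_pow _

theorem enc_testBit (b : Finset (Fin 8)) (i : Fin 8) : (enc b).testBit i = decide (i ∈ b) :=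
  Nat.testBit_ofBits_lt _ _ i.2

theorem mem_blk (m : ℕ) (i : Fin 8) : i ∈ blk m ↔ m.testBit i = true := by
  simp [blk]

theorem blk_enc (b : Finset (Fin 8)) : blk (enc b) = b := by
  ext i
  rw [mem_blk, enc_testBit]
  simp

theorem enc_blk (m : ℕ) (hm : m < 256) : enc (blk m) = m := by
  apply Nat.eq_of_testBit_eq
  intro i
  by_cases hi : i < 8
  · have := enc_testBit (blk m) ⟨i, hi⟩
    rw [this]
    simp [mem_blk]
  · rw [enc, Nat.testBit_ofBits_ge _ _ (by omega), Nat.testBit_lt_two_pow]
    calc m < 2 ^ 8 := hm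
      _ ≤ 2 ^ i := Nat.pow_le_pow_right (by norm_num) (by omega)

theorem blk_inj {m m' : ℕ} (h : m < 256) (h' : m' < 256) (hh : blk m = blk m') : m = m' := by
  rw [← enc_blk m h, ← enc_blk m' h', hh]

/-- all masks of weight four -/
def masks : List ℕ := (List.range 256).filter (fun m => (blk m).card = 4)

/-- all masks of weight two -/
def pairs : List ℕ := [3, 5, 6, 9, 10, 12, 17, 18, 20, 24, 33, 34, 36, 40, 48, 65, 66, 68, 72, 80,
  96, 129, 130, 132, 136, 144, 160, 192]

theorem pairs_spec : ∀ m < 256, (blk m).card = 2 → m ∈ pairs := by decide +kernel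

theorem pairs_card : ∀ m ∈ pairs, m < 256 ∧ (blk m).card = 2 := by decide +kernel

end Pool.Agent.W230.Hole
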